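import Pool.Agent.L7h58.BP.Stm2

set_option autoImplicit false

/-! # Part CEN of project BP: the expansion of the Bernoulli polynomial at 1/2 -/

namespace Pool.Agent.L7h10.BP

open Pool.Agent.L7h58.BP Finset Polynomial

/-- the defect of the duplication formula -/
noncomputable def Dup (n : ℕ) : ℚ[X] :=
  (Polynomial.bernoulli n).comp (X + C (1 / 2)) + Polynomial.bernoulli n -
    C (2 / 2 ^ n) * (Polynomial.bernoulli n).comp (C 2 * X)

theorem Dup_eval (n : ℕ) (x : ℚ) : (Dup n).eval x = (Polynomial.bernoulli n).eval (x + 1 / 2) +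
    (Polynomial.bernoulli n).eval x - 2 / 2 ^ n * (Polynomial.bernoulli n).eval (2 * x) := by
  unfold Dup
  simp [eval_comp]

theorem Dup_period (n : ℕ) (x : ℚ) : (Dup n).eval (x + 1 / 2) = (Dup n).eval x := by
  rw [Dup_eval, Dup_eval]
  have h1 : x + 1 / 2 + 1 / 2 = 1 + x := by ring
  have h2 : 2 * (x + 1 / 2) = 1 + 2 * x := by ring
  rw [h1, h2, Polynomial.bernoulli_eval_one_add, Polynomial.bernoulli_eval_one_add]
  cases n with
  | zero => simp
  | succ n =>
    have h3 : (2 : ℚ) ^ (n + 1) = 2 * 2 ^ n := by ring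
    rw [h3, Nat.add_sub_cancel, mul_pow]
    have : (2 : ℚ) ^ n ≠ 0 := by positivity
    field_simp
    ring

theorem Dup_const (n : ℕ) : Dup n = C ((Dup n).eval 0) := by
  apply Polynomial.eq_of_infinite_eval_eq
  apply Set.infinite_of_injective_forall_mem (f := fun k : ℕ => (k : ℚ) / 2)
  · intro a b hab
    have : (a : ℚ) / 2 = (b : ℚ) / 2 := hab
    have h : (a : ℚ) = b := by linarith
    exact_mod_cast h
  · intro k
    show (Dup n).eval ((k : ℚ) / 2) = (C ((Dup n).eval 0)).eval ((k : ℚ) / 2)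
    rw [eval_C]
    induction k with
    | zero => simp
    | succ k ih =>
      rw [← ih, ← Dup_period n ((k : ℚ) / 2)]
      congr 1
      push_cast
      ring

theorem Dup_zero (n : ℕ) : Dup n = 0 := by
  have h1 : Polynomial.derivative (Dup (n + 1)) = ((n + 1 : ℕ) : ℚ[X]) * Dup n := by
    unfold Dup
    rw [Polynomial.derivative_sub, Polynomial.derivative_add, Polynomial.derivative_C_mul,
      Polynomial.derivative_comp, Polynomial.derivative_comp, Polynomial.derivative_bernoulli_add_one]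
    have h3 : (C (2 / 2 ^ (n + 1)) : ℚ[X]) * C 2 = C (2 / 2 ^ n) := by
      rw [← C_mul]
      congr 1
      have : (2 : ℚ) ^ n ≠ 0 := by positivity
      rw [pow_succ]
      field_simp
    simp only [Polynomial.derivative_add, Polynomial.derivative_X, Polynomial.derivative_C,
      Polynomial.derivative_C_mul, mul_comp, add_comp, natCast_comp, one_comp, add_zero, mul_one,
      one_mul, Nat.cast_add, Nat.cast_one]
    rw [← h3]
    ring
  rw [Dup_const (n + 1), Polynomial.derivative_C] at h1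
  have h2 : (((n + 1 : ℕ) : ℚ[X])) ≠ 0 := by
    exact_mod_cast Nat.succ_ne_zero n
  rcases mul_eq_zero.mp h1.symm with h | h
  · exact absurd h h2
  · exact h

theorem sum_even (k : ℕ) (f : ℕ → ℂ) (hf : ∀ j, f (2 * j + 1) = 0) :
    ∑ i ∈ range (2 * k + 1), f i = ∑ j ∈ range (k + 1), f (2 * j) := by
  induction k with
  | zero => simp
  | succ k ih =>
    rw [show 2 * (k + 1) + 1 = (2 * k + 1) + 1 + 1 by ring, Finset.sum_range_succ,
      Finset.sum_range_succ, ih, hf k, add_zero, Finset.sum_range_succ _ (k + 1)]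
    congr 1

theorem aeval_bern (n : ℕ) (y : ℂ) : aeval y (Polynomial.bernoulli n) =
    ∑ i ∈ range (n + 1), ((_root_.bernoulli i * (n.choose i : ℚ) : ℚ) : ℂ) * y ^ (n - i) := by
  unfold Polynomial.bernoulli
  rw [map_sum]
  refine Finset.sum_congr rfl fun i _ => ?_
  rw [Polynomial.aeval_monomial]
  rfl

theorem s_CEN : S_CEN := by
  intro n Y hn hn2 hY hdvd
  obtain ⟨k, hk⟩ := hn
  have hk2 : n = 2 * k := by omega
  obtain ⟨y, hy⟩ := IsAlgClosed.exists_pow_nat_eq ((Y : ℂ) / 12) (n := 2) (by norm_num)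
  have hYC : (Y : ℂ) ≠ 0 := by exact_mod_cast hY
  have hroot : aeval (y + 1 / 2 : ℂ) (Polynomial.bernoulli n) = 0 := by
    obtain ⟨g, hg⟩ := hdvd
    rw [hg, map_mul]
    have : aeval (y + 1 / 2 : ℂ) ((X ^ 2 - X + C (((3 - Y : ℤ) : ℚ) / 12)) : ℚ[X]) = 0 := by
      simp only [map_add, map_sub, map_pow, aeval_X, aeval_C]
      have h1 : (algebraMap ℚ ℂ) (((3 - Y : ℤ) : ℚ) / 12) = (3 - (Y : ℂ)) / 12 := by
        simp
      rw [h1]
      linear_combination hy
    rw [this, zero_mul]
  have hdup : aeval y (Dup n) = 0 := by rw [Dup_zero, map_zero]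
  have h2 : aeval y ((Polynomial.bernoulli n).comp (X + C (1 / 2))) =
      aeval (y + 1 / 2 : ℂ) (Polynomial.bernoulli n) := by
    rw [Polynomial.aeval_comp]
    congr 2
    simp
  have h3 : aeval y ((Polynomial.bernoulli n).comp (C 2 * X)) =
      aeval (2 * y : ℂ) (Polynomial.bernoulli n) := by
    rw [Polynomial.aeval_comp]
    congr 2
    simp
  unfold Dup at hdup
  rw [map_sub, map_add, map_mul, h2, h3, hroot, zero_add, aeval_C, aeval_bern, aeval_bern,
    Finset.mul_sum, ← Finset.sum_sub_distrib] at hdup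
  have h4 : (algebraMap ℚ ℂ) (2 / 2 ^ n) = 2 / 2 ^ n := by simp
  rw [h4] at hdup
  rw [hk2] at hdup
  rw [sum_even k] at hdup
  · unfold Pool.Agent.L7h58.BP.Rel
    have h5 : (((∑ j ∈ range (n / 2 + 1), (n.choose (2 * j) : ℚ) * be j / (Y : ℚ) ^ j : ℚ)) : ℂ) *
        (-((Y : ℂ) / 12) ^ k) = 0 := by
      rw [← hdup, hk2, show 2 * k / 2 = k by omega]
      push_cast
      rw [Finset.sum_mul]
      refine Finset.sum_congr rfl fun j hj => ?_
      rw [Finset.mem_range] at hj
      have h6 : y ^ (2 * k - 2 * j) = ((Y : ℂ) / 12) ^ (k - j) := by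
        rw [← hy, ← pow_mul]
        congr 1
        omega
      have h7 : (2 * y) ^ (2 * k - 2 * j) = 4 ^ (k - j) * ((Y : ℂ) / 12) ^ (k - j) := by
        rw [mul_pow, h6, show 2 * k - 2 * j = 2 * (k - j) by omega, pow_mul]
        norm_num
      rw [h6, h7]
      obtain ⟨l, rfl⟩ : ∃ l, k = j + l := ⟨k - j, by omega⟩
      have h8 : j + l - j = l := by omega
      rw [h8]
      unfold be
      push_cast
      rw [pow_mul (2 : ℂ), pow_add, pow_add, div_pow, div_pow, show (2 : ℂ) ^ 2 = 4 by norm_num,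
        show (12 : ℂ) ^ j = 4 ^ j * 3 ^ j by rw [← mul_pow]; norm_num]
      have h9 : (4 : ℂ) ^ j ≠ 0 := pow_ne_zero _ (by norm_num)
      have h10 : (3 : ℂ) ^ j ≠ 0 := pow_ne_zero _ (by norm_num)
      have h11 : (4 : ℂ) ^ l ≠ 0 := pow_ne_zero _ (by norm_num)
      have h12 : (12 : ℂ) ^ l ≠ 0 := pow_ne_zero _ (by norm_num)
      field_simp
      ring
    have h6 : (-((Y : ℂ) / 12) ^ k) ≠ 0 := by
      apply neg_ne_zero.mpr
      apply pow_ne_zero
      exact div_ne_zero hYC (by norm_num)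
    rcases mul_eq_zero.mp h5 with h | h
    · exact_mod_cast h
    · exact absurd h h6
  · intro j
    rcases Nat.eq_zero_or_pos j with h0 | h0
    · subst h0
      rcases Nat.eq_zero_or_pos k with hk0 | hk0
      · omega
      · obtain ⟨l, rfl⟩ : ∃ l, k = l + 1 := ⟨k - 1, by omega⟩
        rw [mul_pow]
        have : 2 * (l + 1) - (2 * 0 + 1) = 2 * l + 1 := by omega
        rw [this]
        have h9 : (2 : ℂ) ^ (2 * (l + 1)) = 2 * 2 ^ (2 * l + 1) := by ring
        rw [h9]
        have h10 : (2 : ℂ) ^ (2 * l + 1) ≠ 0 := pow_ne_zero _ (by norm_num)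
        field_simp
        ring
    · have h1 : _root_.bernoulli (2 * j + 1) = 0 :=
        bernoulli_eq_zero_of_odd ⟨j, rfl⟩ (by omega)
      rw [h1]
      simp

end Pool.Agent.L7h10.BP
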