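import Pool.Agent.L7h58.BP.Stm

set_option autoImplicit false

/-! # Parts CRI and LOC of project BP -/

namespace Pool.Agent.L7h10.BP

open Pool.Agent.L7h58.BP Polynomial Finset

theorem bernoulli_natDegree (n : ℕ) :
    (Polynomial.bernoulli n).natDegree = n ∧ (Polynomial.bernoulli n).leadingCoeff = 1 := by
  have h1 : (Polynomial.bernoulli n).coeff n = 1 := by
    rw [Polynomial.coeff_bernoulli]
    simp
  have h2 : (Polynomial.bernoulli n).natDegree ≤ n := by
    rw [natDegree_le_iff_coeff_eq_zero]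
    intro j hj
    rw [Polynomial.coeff_bernoulli, if_neg (by omega)]
  have h3 : (Polynomial.bernoulli n).natDegree = n :=
    le_antisymm h2 (le_natDegree_of_ne_zero (by rw [h1]; exact one_ne_zero))
  exact ⟨h3, by rw [leadingCoeff, h3, h1]⟩

theorem s_CRI (hG : S_GAU) (hR : S_RED) : S_CRI := by
  intro n p hn hn2 hp hpn f g hfg
  have : Fact p.Prime := ⟨hp⟩
  obtain ⟨P, D, hD, hP, hloc⟩ := hR n hn hn2
  obtain ⟨hpD, hp2D, u, hu, hPu⟩ := hloc p hp hpn
  have hDq : (D : ℚ) ≠ 0 := Nat.cast_ne_zero.2 hD.ne'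
  obtain ⟨hdB, hlB⟩ := bernoulli_natDegree n
  have hB0 : Polynomial.bernoulli n ≠ 0 := by
    intro h
    rw [h, leadingCoeff_zero] at hlB
    exact zero_ne_one hlB
  have hinj : Function.Injective (Int.castRingHom ℚ) := Int.cast_injective
  have hP0 : P ≠ 0 := by
    rintro rfl
    rw [Polynomial.map_zero] at hP
    exact mul_ne_zero (C_ne_zero.2 hDq) hB0 hP.symm
  obtain ⟨F, G, hFG, hF, hGd⟩ := hG P (C (D : ℚ) * f) g hP0 (by rw [hP, hfg, mul_assoc])
  rw [natDegree_C_mul hDq] at hF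
  -- leading coefficients
  have hlead : F.leadingCoeff * G.leadingCoeff = D := by
    rw [← leadingCoeff_mul, ← hFG]
    have h1 : (P.map (Int.castRingHom ℚ)).leadingCoeff = (D : ℚ) := by
      rw [hP, leadingCoeff_mul, hlB, leadingCoeff_C, mul_one]
    rw [leadingCoeff_map_of_injective hinj] at h1
    have h2 : ((P.leadingCoeff : ℤ) : ℚ) = ((D : ℤ) : ℚ) := by
      rw [Int.cast_natCast]
      exact h1
    exact_mod_cast h2
  have hnot : ¬ ((p : ℤ) ∣ F.leadingCoeff ∧ (p : ℤ) ∣ G.leadingCoeff) := by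
    rintro ⟨h1, h2⟩
    have h3 := mul_dvd_mul h1 h2
    rw [hlead] at h3
    apply hp2D
    have h4 : ((p ^ 2 : ℕ) : ℤ) ∣ (D : ℤ) := by
      rw [Nat.cast_pow, pow_two]
      exact h3
    exact_mod_cast h4
  set φ := Int.castRingHom (ZMod p) with hφ
  have hle : ∀ H : ℤ[X], (H.map φ).natDegree ≤ H.natDegree := fun H => natDegree_map_le
  have heq : ∀ H : ℤ[X], ¬ (p : ℤ) ∣ H.leadingCoeff → (H.map φ).natDegree = H.natDegree := by
    intro H hH
    apply natDegree_map_of_leadingCoeff_ne_zero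
    intro h0
    apply hH
    rw [hφ, eq_intCast, ZMod.intCast_zmod_eq_zero_iff_dvd] at h0
    exact h0
  refine ⟨C u⁻¹ * F.map φ, G.map φ, ?_, ?_, ?_, ?_⟩
  · rw [mul_assoc, ← Polynomial.map_mul, ← hFG, hPu, ← mul_assoc, ← C_mul, inv_mul_cancel₀ hu,
      C_1, one_mul]
  · rw [natDegree_C_mul (inv_ne_zero hu), ← hF]
    exact hle F
  · rw [← hGd]
    exact hle G
  · rw [natDegree_C_mul (inv_ne_zero hu), ← hF, ← hGd]
    by_cases h : (p : ℤ) ∣ F.leadingCoeff
    · exact Or.inr (heq G fun h2 => hnot ⟨h, h2⟩)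
    · exact Or.inl (heq F h)

theorem s_LOC (hC : S_CRI) (hL : S_LUC) : S_LOC := by
  intro n l A t hn hl hl2 hnA ht hA f g hfg
  have hA1 : 1 ≤ A := by omega
  have hln : l - 1 ≤ n := by
    rw [hnA]
    calc l - 1 = 1 * (l - 1) := (one_mul _).symm
      _ ≤ A * (l - 1) := Nat.mul_le_mul_right _ hA1
      _ ≤ _ := Nat.le_add_right _ _
  obtain ⟨F, G, hFG, hF, hG, hor⟩ := hC n l hn (by omega) hl (by omega) f g hfg
  obtain ⟨h0, hdeg⟩ := hL l n A t hl hl2 hnA ht hA
  rw [← hFG] at h0 hdeg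
  have : Fact l.Prime := ⟨hl⟩
  have hF0 : F ≠ 0 := left_ne_zero_of_mul h0
  have hG0 : G ≠ 0 := right_ne_zero_of_mul h0
  rw [natDegree_mul hF0 hG0] at hdeg
  rcases hor with h | h
  · exact (min_le_left _ _).trans (by omega)
  · exact (min_le_right _ _).trans (by omega)

end Pool.Agent.L7h10.BP
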