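import Pool.Agent.L7h58.BP.Stm2

set_option autoImplicit false

/-! # Part DDF of project BP: the determinant -/

namespace Pool.Agent.L7h10.BP

open Pool.Agent.L7h58.BP Finset Polynomial

/-- the Vandermonde determinant of three numbers -/
def V3 {R : Type*} [CommRing R] (a b c : R) : R := (b - a) * (c - a) * (c - b)

theorem det_four {R : Type*} [CommRing R] (m y : Fin 4 → R) :
    (Matrix.of (fun i : Fin 4 => ![1, m i, m i ^ 2, y i])).det =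
      y 3 * V3 (m 0) (m 1) (m 2) - y 2 * V3 (m 0) (m 1) (m 3) + y 1 * V3 (m 0) (m 2) (m 3) -
        y 0 * V3 (m 1) (m 2) (m 3) := by
  unfold V3
  rw [Matrix.det_succ_row_zero]
  simp only [Matrix.det_fin_three, Fin.sum_univ_succ, Matrix.submatrix_apply, Matrix.of_apply,
    Matrix.cons_val]
  simp [Fin.succAbove]
  ring

theorem newton {R : Type*} [CommRing R] (e : R[X]) (a0 a1 a2 a3 : R) :
    ∃ n0 n1 n2 z : R, e.eval a0 = n0 ∧ e.eval a1 = n0 + (a1 - a0) * n1 ∧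
      e.eval a2 = n0 + (a2 - a0) * n1 + (a2 - a0) * (a2 - a1) * n2 ∧
      e.eval a3 = n0 + (a3 - a0) * n1 + (a3 - a0) * (a3 - a1) * n2 +
        (a3 - a0) * (a3 - a1) * (a3 - a2) * z := by
  obtain ⟨q1, h1⟩ := Polynomial.X_sub_C_dvd_sub_C_eval (p := e) (a := a0)
  obtain ⟨q2, h2⟩ := Polynomial.X_sub_C_dvd_sub_C_eval (p := q1) (a := a1)
  obtain ⟨q3, h3⟩ := Polynomial.X_sub_C_dvd_sub_C_eval (p := q2) (a := a2)
  have h1' : ∀ x, e.eval x = e.eval a0 + (x - a0) * q1.eval x := by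
    intro x
    have := congrArg (Polynomial.eval x) h1
    simp only [eval_sub, eval_C, eval_mul, eval_X] at this
    linear_combination this
  have h2' : ∀ x, q1.eval x = q1.eval a1 + (x - a1) * q2.eval x := by
    intro x
    have := congrArg (Polynomial.eval x) h2
    simp only [eval_sub, eval_C, eval_mul, eval_X] at this
    linear_combination this
  have h3' : ∀ x, q2.eval x = q2.eval a2 + (x - a2) * q3.eval x := by
    intro x
    have := congrArg (Polynomial.eval x) h3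
    simp only [eval_sub, eval_C, eval_mul, eval_X] at this
    linear_combination this
  refine ⟨e.eval a0, q1.eval a1, q2.eval a2, q3.eval a3, rfl, h1' a1, ?_, ?_⟩
  · rw [h1' a2, h2' a2]
    ring
  · rw [h1' a3, h2' a3, h3' a3]
    ring

theorem s_DDF (hTAD : S_TAD) : S_DDF := by
  intro r m Y hinj hmod hY
  set V : ℤ := ((m 1 : ℤ) - m 0) * ((m 2 : ℤ) - m 0) * ((m 3 : ℤ) - m 0) *
    ((m 2 : ℤ) - m 1) * ((m 3 : ℤ) - m 1) * ((m 3 : ℤ) - m 2) with hV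
  have hne : ∀ i j, i ≠ j → (m i : ℤ) - m j ≠ 0 := by
    intro i j hij h
    apply hij
    apply hinj
    have : (m i : ℤ) = m j := by linarith
    exact_mod_cast this
  have hV0 : V ≠ 0 := by
    rw [hV]
    refine mul_ne_zero (mul_ne_zero (mul_ne_zero (mul_ne_zero (mul_ne_zero ?_ ?_) ?_) ?_) ?_) ?_
    all_goals exact hne _ _ (by decide)
  have hdv : ∀ i j, (3 : ℤ) ^ r ∣ (m i : ℤ) - m j := by
    intro i j
    have h := (Nat.modEq_iff_dvd.mp (hmod j i))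
    push_cast at h
    exact h
  have hVdvd : (3 : ℤ) ^ (6 * r) ∣ V := by
    have : (3 : ℤ) ^ (6 * r) = 3 ^ r * 3 ^ r * 3 ^ r * 3 ^ r * 3 ^ r * 3 ^ r := by
      rw [← pow_add, ← pow_add, ← pow_add, ← pow_add, ← pow_add]
      congr 1
      ring
    rw [this, hV]
    exact mul_dvd_mul (mul_dvd_mul (mul_dvd_mul (mul_dvd_mul (mul_dvd_mul (hdv _ _) (hdv _ _))
      (hdv _ _)) (hdv _ _)) (hdv _ _)) (hdv _ _)
  obtain ⟨v, V', hV', hnd⟩ : ∃ (v : ℕ) (V' : ℤ), V = 3 ^ v * V' ∧ ¬ (3 : ℤ) ∣ V' := by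
    have hf : FiniteMultiplicity (3 : ℤ) V :=
      Int.finiteMultiplicity_iff.mpr ⟨by decide, hV0⟩
    obtain ⟨c, h1, h2⟩ := hf.exists_eq_pow_mul_and_not_dvd
    exact ⟨_, c, h1, h2⟩
  obtain ⟨y, e, hye, hYy⟩ := hTAD (v + 4 + 6 * r)
  choose d hd using fun i => hYy (m i) (Y i) (hY i).1 (hY i).2
  obtain ⟨n0, n1, n2, z, he0, he1, he2, he3⟩ := newton e (m 0 : ℤ_[3]) (m 1 : ℤ_[3])
    (m 2 : ℤ_[3]) (m 3 : ℤ_[3])
  have hyi : ∀ i, (Y i : ℤ_[3]) = 1 + 51 * (m i : ℤ_[3]) + 9 * (m i : ℤ_[3]) ^ 2 +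
      27 * (m i : ℤ_[3]) ^ 3 + 81 * e.eval (m i : ℤ_[3]) + 3 ^ (v + 4 + 6 * r) * d i := by
    intro i
    have h1 := hd i
    rw [hye] at h1
    have h2 : ((1 + 51 * X + 9 * X ^ 2 + 27 * X ^ 3 + 81 * e : ℤ_[3][X])).eval (m i : ℤ_[3]) =
        1 + 51 * (m i : ℤ_[3]) + 9 * (m i : ℤ_[3]) ^ 2 +
      27 * (m i : ℤ_[3]) ^ 3 + 81 * e.eval (m i : ℤ_[3]) := by
      simp
    rw [h2] at h1
    linear_combination h1
  set D : ℤ := (Matrix.of (fun i : Fin 4 => ![1, (m i : ℤ), (m i : ℤ) ^ 2, Y i])).det with hD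
  have hD2 : D = Y 3 * V3 (m 0 : ℤ) (m 1) (m 2) - Y 2 * V3 (m 0 : ℤ) (m 1) (m 3) +
      Y 1 * V3 (m 0 : ℤ) (m 2) (m 3) - Y 0 * V3 (m 1 : ℤ) (m 2) (m 3) := by
    rw [hD]
    exact det_four (fun i => (m i : ℤ)) Y
  have hD3 : ∃ Δ : ℤ_[3], (D : ℤ_[3]) = (V : ℤ_[3]) * (27 + 81 * z) +
      3 ^ (v + 4 + 6 * r) * Δ := by
    refine ⟨d 3 * V3 (m 0 : ℤ_[3]) (m 1) (m 2) - d 2 * V3 (m 0 : ℤ_[3]) (m 1) (m 3) +
      d 1 * V3 (m 0 : ℤ_[3]) (m 2) (m 3) - d 0 * V3 (m 1 : ℤ_[3]) (m 2) (m 3), ?_⟩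
    rw [hD2, hV]
    unfold V3
    push_cast
    rw [hyi 0, hyi 1, hyi 2, hyi 3, he0, he1, he2, he3]
    ring
  obtain ⟨Δ, hΔ⟩ := hD3
  have hD0 : D ≠ 0 := by
    intro h0
    rw [h0, hV'] at hΔ
    push_cast at hΔ
    have h3 : (3 : ℤ_[3]) ≠ 0 := by
      exact_mod_cast (by norm_num : (3 : ℕ) ≠ 0)
    have h4 : (3 : ℤ_[3]) ^ (v + 3) * ((V' : ℤ_[3]) + 3 * (V' * z + 3 ^ (6 * r) * Δ)) = 0 := by
      rw [hΔ]
      ring
    have h5 : (V' : ℤ_[3]) + 3 * (V' * z + 3 ^ (6 * r) * Δ) = 0 := by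
      rcases mul_eq_zero.mp h4 with h | h
      · exact absurd h (pow_ne_zero _ h3)
      · exact h
    apply hnd
    have h6 := (PadicInt.pow_p_dvd_int_iff (p := 3) 1 V').mp
    rw [pow_one] at h6
    apply h6
    refine ⟨-(V' * z + 3 ^ (6 * r) * Δ), ?_⟩
    push_cast
    linear_combination h5
  have hDd : (3 : ℤ) ^ (6 * r) ∣ D := by
    have h6 := (PadicInt.pow_p_dvd_int_iff (p := 3) (6 * r) D).mp
    push_cast at h6
    apply h6
    rw [hΔ]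
    apply dvd_add
    · apply Dvd.dvd.mul_right
      have h7 := (PadicInt.pow_p_dvd_int_iff (p := 3) (6 * r) V).mpr
      push_cast at h7
      exact h7 hVdvd
    · apply Dvd.dvd.mul_right
      exact pow_dvd_pow _ (by omega)
  exact Int.le_of_dvd (abs_pos.mpr hD0) ((dvd_abs _ _).mpr hDd)

end Pool.Agent.L7h10.BP
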