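import Pool.Agent.L7h58.BP.Stm

set_option autoImplicit false

/-! # Part GAU of project BP: the Gauss lemma -/

namespace Pool.Agent.L7h10.BP

open Pool.Agent.L7h58.BP Polynomial

open scoped nonZeroDivisors

theorem s_GAU : S_GAU := by
  intro P f g hP hfg
  have hinj : Function.Injective (Int.castRingHom ℚ) := Int.cast_injective
  have hPm : P.map (Int.castRingHom ℚ) ≠ 0 := by
    rwa [Ne, Polynomial.map_eq_zero_iff hinj]
  have hf0 : f ≠ 0 := by
    rintro rfl
    rw [zero_mul] at hfg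
    exact hPm hfg
  have hg0 : g ≠ 0 := by
    rintro rfl
    rw [mul_zero] at hfg
    exact hPm hfg
  obtain ⟨b, hb, hb2⟩ := IsLocalization.integerNormalization_spec ℤ⁰ f
  set p1 : ℤ[X] := IsLocalization.integerNormalization ℤ⁰ f with hp1
  have hb0 : b ≠ 0 := nonZeroDivisors.ne_zero hb
  have hb0q : (b : ℚ) ≠ 0 := Int.cast_ne_zero.2 hb0
  have hmap1 : p1.map (Int.castRingHom ℚ) = C (b : ℚ) * f := by
    have : (algebraMap ℤ ℚ) = Int.castRingHom ℚ := rfl
    rw [← this, hb2]
    ext i
    simp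
  have hp10 : p1 ≠ 0 := by
    intro h
    rw [h, Polynomial.map_zero] at hmap1
    exact mul_ne_zero (C_ne_zero.2 hb0q) hf0 hmap1.symm
  set f0 := p1.primPart with hf0def
  have hprim : f0.IsPrimitive := p1.isPrimitive_primPart
  have hc1 : p1.content ≠ 0 := by
    rwa [Ne, Polynomial.content_eq_zero_iff]
  have hmap2 : C (p1.content : ℚ) * f0.map (Int.castRingHom ℚ) = C (b : ℚ) * f := by
    rw [← hmap1]
    conv_rhs => rw [p1.eq_C_content_mul_primPart]
    rw [Polynomial.map_mul, Polynomial.map_C]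
    rfl
  have hdvd : f0 ∣ P := by
    rw [Polynomial.IsPrimitive.Int.dvd_iff_map_cast_dvd_map_cast _ _ hprim, hfg]
    refine Dvd.dvd.mul_right ?_ g
    refine ⟨C ((p1.content : ℚ) / b), ?_⟩
    have h1 : C (b : ℚ) * f = C (b : ℚ) *
        (f0.map (Int.castRingHom ℚ) * C ((p1.content : ℚ) / b)) := by
      have h2 : (C (p1.content : ℚ) : ℚ[X]) = C (b : ℚ) * C ((p1.content : ℚ) / b) := by
        rw [← C_mul]
        congr 1
        field_simp
      rw [← hmap2, h2]
      ring
    exact mul_left_cancel₀ (C_ne_zero.2 hb0q) h1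
  obtain ⟨G, hG⟩ := hdvd
  have hdeg : f0.natDegree = f.natDegree := by
    have h1 := congrArg natDegree hmap2
    rw [natDegree_C_mul (Int.cast_ne_zero.2 hc1), natDegree_C_mul hb0q,
      natDegree_map_eq_of_injective hinj] at h1
    exact h1
  refine ⟨f0, G, hG, hdeg, ?_⟩
  have hf00 : f0 ≠ 0 := hprim.ne_zero
  have hG0 : G ≠ 0 := by
    rintro rfl
    rw [mul_zero] at hG
    exact hP hG
  have h1 := congrArg natDegree hfg
  rw [natDegree_map_eq_of_injective hinj, hG, natDegree_mul hf00 hG0, natDegree_mul hf0 hg0] at h1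
  omega

end Pool.Agent.L7h10.BP
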