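import Pool.Agent.L7h10.BP.Pw

set_option autoImplicit false

/-! # Part LUC of project BP -/

namespace Pool.Agent.L7h10.BP

open Pool.Agent.L7h58.BP Polynomial Finset

/-- base `l` digits of `n = A (l - 1) + t` -/
theorem digits_n {l A t : ℕ} (hl : 2 < l) (ht : t < A) (hA : A ≤ l) :
    (A * (l - 1) + t) % l = l - A + t ∧ (A * (l - 1) + t) / l = A - 1 := by
  obtain ⟨m, rfl⟩ : ∃ m, l = A + m := ⟨l - A, by omega⟩
  obtain ⟨B, rfl⟩ : ∃ B, A = B + 1 := ⟨A - 1, by omega⟩
  have h1 : (B + 1) * (B + 1 + m - 1) + t = (m + t) + (B + 1 + m) * B := by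
    have : B + 1 + m - 1 = B + m := by omega
    rw [this]
    ring
  have h2 : B + 1 + m - (B + 1) + t = m + t := by omega
  have h3 : B + 1 - 1 = B := by omega
  rw [h1, h2, h3]
  constructor
  · rw [Nat.add_mul_mod_self_left]
    exact Nat.mod_eq_of_lt (by omega)
  · rw [Nat.add_mul_div_left _ _ (by omega), Nat.div_eq_of_lt (by omega), zero_add]

/-- base `l` digits of `i (l - 1)` -/
theorem digits_k {l i : ℕ} (hl : 2 < l) (h1 : 1 ≤ i) (h2 : i ≤ l) :
    (i * (l - 1)) % l = l - i ∧ (i * (l - 1)) / l = i - 1 := by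
  obtain ⟨m, rfl⟩ : ∃ m, l = i + m := ⟨l - i, by omega⟩
  obtain ⟨B, rfl⟩ : ∃ B, i = B + 1 := ⟨i - 1, by omega⟩
  have h1 : (B + 1) * (B + 1 + m - 1) = m + (B + 1 + m) * B := by
    have : B + 1 + m - 1 = B + m := by omega
    rw [this]
    ring
  have h2 : B + 1 + m - (B + 1) = m := by omega
  have h3 : B + 1 - 1 = B := by omega
  rw [h1, h2, h3]
  constructor
  · rw [Nat.add_mul_mod_self_left]
    exact Nat.mod_eq_of_lt (by omega)
  · rw [Nat.add_mul_div_left _ _ (by omega), Nat.div_eq_of_lt (by omega), zero_add]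

theorem s_LUC : S_LUC := by
  intro l n A t hl hl2 hn ht hA
  have : Fact l.Prime := ⟨hl⟩
  obtain ⟨d1, d2⟩ := digits_n hl2 ht hA
  rw [← hn] at d1 d2
  -- the coefficient with k = i (l - 1)
  have hch : ∀ i, 1 ≤ i → i ≤ l → i * (l - 1) ≤ n →
      ((n.choose (n - i * (l - 1)) : ℕ) : ZMod l) =
        (((l - A + t).choose (l - i) * (A - 1).choose (i - 1) : ℕ) : ZMod l) := by
    intro i h1 h2 h3
    rw [Nat.choose_symm h3, ZMod.natCast_eq_natCast_iff]
    have := Choose.choose_modEq_choose_mod_mul_choose_div_nat (p := l) (n := n)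
      (k := i * (l - 1))
    rw [(digits_k hl2 h1 h2).1, (digits_k hl2 h1 h2).2, d1, d2] at this
    exact this
  have hAt : (A - t) * (l - 1) ≤ n := by
    rw [hn]
    exact (Nat.mul_le_mul_right _ (by omega)).trans (Nat.le_add_right _ _)
  have htl : n - (A - t) * (l - 1) = t * l := by
    obtain ⟨B, rfl⟩ : ∃ B, A = B + t := ⟨A - t, by omega⟩
    obtain ⟨m, rfl⟩ : ∃ m, l = m + 1 := ⟨l - 1, by omega⟩
    rw [hn]
    have : B + t - t = B := by omega
    rw [this]
    have h5 : (B + t) * (m + 1 - 1) + t = t * (m + 1) + B * (m + 1 - 1) := by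
      have : m + 1 - 1 = m := by omega
      rw [this]
      ring
    rw [h5]
    omega
  constructor
  · -- nonzero
    intro h0
    have h1 : (Sp l n).coeff (t * l) = 0 := by rw [h0, coeff_zero]
    rw [coeff_Sp, ← htl, Nat.sub_sub_self hAt, hch (A - t) (by omega) (by omega) hAt,
      pw_eq l _ (Nat.mul_ne_zero (by omega) (by omega)),
      if_pos (Dvd.intro_left _ rfl)] at h1
    have h2 : l - (A - t) = l - A + t := by omega
    rw [h2, Nat.choose_self, one_mul] at h1
    have h3 : (((A - 1).choose (A - t - 1) : ℕ) : ZMod l) = 0 := by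
      rcases mul_eq_zero.1 h1 with h | h
      · exact h
      · exact absurd h (neg_ne_zero.2 one_ne_zero)
    rw [ZMod.natCast_eq_zero_iff] at h3
    have h4 : l ∣ (A - 1).factorial :=
      h3.trans ⟨_, by rw [← mul_assoc, Nat.choose_mul_factorial_mul_factorial (by omega)]⟩
    have := (hl.dvd_factorial).1 h4
    omega
  · -- degree
    rw [natDegree_le_iff_coeff_eq_zero]
    intro j hj
    rw [coeff_Sp]
    rcases Nat.lt_or_ge n j with hjn | hjn
    · rw [Nat.choose_eq_zero_of_lt hjn, Nat.cast_zero, zero_mul]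
    rcases Nat.eq_zero_or_pos (n - j) with h0 | h0
    · rw [h0, pw_zero, mul_zero]
    rw [pw_eq l _ (by omega)]
    split_ifs with hdvd
    · obtain ⟨i, hi⟩ := hdvd
      rw [mul_comm] at hi
      have hi1 : 1 ≤ i := by
        rcases Nat.eq_zero_or_pos i with h | h
        · rw [h, zero_mul] at hi
          omega
        · exact h
      have hlt : i * (l - 1) < (A - t) * (l - 1) := by omega
      have hiA : i < A - t := lt_of_mul_lt_mul_right hlt (Nat.zero_le _)
      have hj' : j = n - i * (l - 1) := by omega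
      rw [hj', hch i hi1 (by omega) (by omega),
        Nat.choose_eq_zero_of_lt (show l - A + t < l - i by omega)]
      simp
    · rw [mul_zero]

end Pool.Agent.L7h10.BP
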