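import Pool.Agent.L7h58.BP.Stm2
import Pool.Agent.L7h10.BP.CRI

set_option autoImplicit false

/-! # Part POL of project BP: the polar quadratic factor -/

namespace Pool.Agent.L7h10.BP

open Pool.Agent.L7h58.BP Finset Polynomial

theorem sym_shape (f : ℚ[X]) (hf : f.natDegree = 2) (hs : f.comp (1 - X) = f) :
    ∃ a c : ℚ, a ≠ 0 ∧ f = C a * (X ^ 2 - X + C c) := by
  have h1 : f = C (f.coeff 2) * X ^ 2 + C (f.coeff 1) * X + C (f.coeff 0) := by
    conv_lhs => rw [f.as_sum_range_C_mul_X_pow, hf]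
    rw [Finset.sum_range_succ, Finset.sum_range_succ, Finset.sum_range_succ, Finset.sum_range_zero]
    simp only [pow_zero, pow_one, mul_one, zero_add]
    ring
  have ha : f.coeff 2 ≠ 0 := by
    rw [← hf]
    intro h
    have := leadingCoeff_eq_zero.mp h
    rw [this, natDegree_zero] at hf
    omega
  have hb : f.coeff 1 = - f.coeff 2 := by
    have h2 : f.eval 1 = f.eval 0 := by
      conv_rhs => rw [← hs]
      simp [eval_comp]
    rw [h1] at h2
    simp at h2
    linarith
  refine ⟨f.coeff 2, f.coeff 0 / f.coeff 2, ha, ?_⟩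
  conv_lhs => rw [h1, hb]
  have h3 : C (f.coeff 2) * C (f.coeff 0 / f.coeff 2) = C (f.coeff 0) := by
    rw [← C_mul]
    congr 1
    field_simp
  rw [C_neg]
  linear_combination -h3

theorem coeff_two (n : ℕ) (hn : 2 ≤ n) :
    6 * (Polynomial.bernoulli n).coeff (n - 2) = (n.choose 2 : ℚ) := by
  rw [Polynomial.coeff_bernoulli, if_pos (by omega), show n - (n - 2) = 2 by omega,
    _root_.bernoulli_two, Nat.choose_symm hn]
  ring

theorem s_POL (hR : S_RED2) (hN : S_NRT) : S_POL := by
  intro q f hq hq3 hfd hfs hdvd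
  have hq2 : q % 2 = 1 := by
    rcases hq.eq_two_or_odd with h | h
    · omega
    · exact h
  obtain ⟨a1, c, ha1, hfc⟩ := sym_shape f hfd hfs
  have hg : (X ^ 2 - X + C c) ∣ Polynomial.bernoulli (2 * q) := by
    obtain ⟨h, hh⟩ := hdvd
    refine ⟨C a1 * h, ?_⟩
    rw [hh, hfc]
    ring
  obtain ⟨P, hP, hPl⟩ := hR (2 * q) (even_two_mul q) (by omega)
  set D : ℕ := primorial (2 * q + 1) with hD
  have hDpos : 0 < D := primorial_pos _
  have hDq : (D : ℚ) ≠ 0 := Nat.cast_ne_zero.2 hDpos.ne'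
  have hsq : Squarefree D := squarefree_primorial _
  have hinj : Function.Injective (Int.castRingHom ℚ) := Int.cast_injective
  obtain ⟨hdB, hlB⟩ := bernoulli_natDegree (2 * q)
  set a : ℕ := c.den with ha
  have ha0 : 0 < a := c.pos
  set F : ℤ[X] := C (a : ℤ) * X ^ 2 - C (a : ℤ) * X + C c.num with hF
  have hFc2 : F.coeff 2 = a := by
    rw [hF]; simp [coeff_X, coeff_C, -eq_intCast]
  have hFc0 : F.coeff 0 = c.num := by
    rw [hF]; simp [-eq_intCast]
  have hFdeg : F.natDegree = 2 := by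
    apply le_antisymm
    · rw [natDegree_le_iff_coeff_eq_zero]
      intro j hj
      rw [hF]
      simp [coeff_X, coeff_C, show j ≠ 0 by omega, show j ≠ 2 by omega, show 1 ≠ j by omega,
        -eq_intCast]
    · apply le_natDegree_of_ne_zero
      rw [hFc2]
      exact_mod_cast ha0.ne'
  have hFlead : F.leadingCoeff = a := by rw [leadingCoeff, hFdeg, hFc2]
  have hcop : IsCoprime (c.num) (a : ℤ) := by
    rw [Int.isCoprime_iff_nat_coprime]
    simpa using c.reduced
  have hFprim : F.IsPrimitive := by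
    intro r hr
    rw [C_dvd_iff_dvd_coeff] at hr
    have h0 := hr 0
    have h2 := hr 2
    rw [hFc0] at h0
    rw [hFc2] at h2
    exact hcop.isUnit_of_dvd' h0 h2
  have hFmap : F.map (Int.castRingHom ℚ) = C (a : ℚ) * (X ^ 2 - X + C c) := by
    rw [hF]
    have h1 : (C (c.num : ℚ) : ℚ[X]) = C (a : ℚ) * C c := by
      rw [← C_mul]
      congr 1
      rw [mul_comm]
      exact (Rat.mul_den_eq_num c).symm
    simp only [Polynomial.map_add, Polynomial.map_sub, Polynomial.map_mul, Polynomial.map_C,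
      Polynomial.map_pow, Polynomial.map_X]
    have h2 : (Int.castRingHom ℚ) (a : ℤ) = (a : ℚ) := by simp
    have h3 : (Int.castRingHom ℚ) c.num = (c.num : ℚ) := rfl
    rw [h2, h3, h1]
    ring
  have haq : (a : ℚ) ≠ 0 := Nat.cast_ne_zero.2 ha0.ne'
  have hFP : F ∣ P := by
    rw [IsPrimitive.Int.dvd_iff_map_cast_dvd_map_cast F P hFprim, hP, hFmap]
    obtain ⟨h, hh⟩ := hg
    refine ⟨C ((D : ℚ) / a) * h, ?_⟩
    rw [hh]
    have : (C (a : ℚ) : ℚ[X]) * C ((D : ℚ) / a) = C (D : ℚ) := by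
      rw [← C_mul]
      congr 1
      field_simp
    linear_combination (-(X ^ 2 - X + C c) * h) * this
  obtain ⟨G, hG⟩ := hFP
  have hPlead : P.leadingCoeff = D := by
    have h1 : (P.map (Int.castRingHom ℚ)).leadingCoeff = (D : ℚ) := by
      rw [hP, leadingCoeff_mul, hlB, leadingCoeff_C, mul_one]
    rw [leadingCoeff_map_of_injective hinj] at h1
    have h2 : ((P.leadingCoeff : ℤ) : ℚ) = ((D : ℤ) : ℚ) := by
      rw [Int.cast_natCast]
      exact h1
    exact_mod_cast h2
  have hPdeg : P.natDegree = 2 * q := by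
    rw [← natDegree_map_eq_of_injective hinj, hP, natDegree_C_mul hDq, hdB]
  have hP0 : P ≠ 0 := by
    intro h
    rw [h, leadingCoeff_zero] at hPlead
    have : (D : ℤ) ≠ 0 := by exact_mod_cast hDpos.ne'
    exact this hPlead.symm
  have hF0 : F ≠ 0 := by
    intro h
    rw [h, zero_mul] at hG
    exact hP0 hG
  have hG0 : G ≠ 0 := by
    intro h
    rw [h, mul_zero] at hG
    exact hP0 hG
  have hGdeg : G.natDegree = 2 * q - 2 := by
    have := natDegree_mul hF0 hG0
    rw [← hG, hPdeg, hFdeg] at this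
    omega
  have hlead : (a : ℤ) * G.leadingCoeff = D := by
    rw [← hFlead, ← leadingCoeff_mul, ← hG, hPlead]
  have haD : a ∣ D := by
    have : (a : ℤ) ∣ (D : ℤ) := ⟨_, hlead.symm⟩
    exact_mod_cast this
  have hasq : Squarefree a := hsq.squarefree_of_dvd haD
  have hP2 : 6 * P.coeff (2 * q - 2) = D * ((2 * q).choose 2 : ℤ) := by
    have h1 : (P.map (Int.castRingHom ℚ)).coeff (2 * q - 2) =
        D * (Polynomial.bernoulli (2 * q)).coeff (2 * q - 2) := by
      rw [hP, coeff_C_mul]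
    rw [coeff_map, eq_intCast] at h1
    have h2 := coeff_two (2 * q) (by omega)
    have h3 : (6 : ℚ) * (P.coeff (2 * q - 2) : ℚ) = D * ((2 * q).choose 2 : ℚ) := by
      rw [h1, ← h2]
      ring
    exact_mod_cast h3
  -- primes at least 5 do not divide a
  have hbig : ∀ p : ℕ, p.Prime → p ∣ a → p = 2 ∨ p = 3 := by
    intro p hp hpa
    by_contra hcon
    push Not at hcon
    have hp5 : ¬ p ∣ 6 := by
      intro h
      have h6 : p ∣ 2 * 3 := h
      rcases hp.dvd_mul.mp h6 with h | h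
      · exact hcon.1 ((Nat.prime_dvd_prime_iff_eq hp Nat.prime_two).mp h)
      · exact hcon.2 ((Nat.prime_dvd_prime_iff_eq hp Nat.prime_three).mp h)
    have hpp : Prime (p : ℤ) := Nat.prime_iff_prime_int.mp hp
    have hpaZ : (p : ℤ) ∣ (a : ℤ) := by exact_mod_cast hpa
    have h1 : (p : ℤ) ∣ P.coeff (2 * q - 2) := by
      have h2 : (p : ℤ) ∣ 6 * P.coeff (2 * q - 2) := by
        rw [hP2]
        apply Dvd.dvd.mul_right
        exact_mod_cast hpa.trans haD
      rcases hpp.dvd_or_dvd h2 with h | h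
      · exfalso
        apply hp5
        exact_mod_cast h
      · exact h
    have h2 : P.coeff (2 * q - 2) = a * ((X ^ 2 - X) * G).coeff (2 * q - 2) +
        c.num * G.coeff (2 * q - 2) := by
      have : P = C (a : ℤ) * ((X ^ 2 - X) * G) + C c.num * G := by
        rw [hG, hF]
        ring
      rw [this, coeff_add, coeff_C_mul, coeff_C_mul]
    have h3 : (p : ℤ) ∣ c.num * G.coeff (2 * q - 2) := by
      have h4 : (p : ℤ) ∣ a * ((X ^ 2 - X) * G).coeff (2 * q - 2) := hpaZ.mul_right _
      rw [h2] at h1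
      exact (dvd_add_right h4).mp h1
    have h4 : ¬ (p : ℤ) ∣ c.num := by
      intro h5
      exact hpp.not_unit (hcop.isUnit_of_dvd' h5 hpaZ)
    have h5 : (p : ℤ) ∣ G.leadingCoeff := by
      rw [leadingCoeff, hGdeg]
      exact (hpp.dvd_or_dvd h3).resolve_left h4
    have h6 : ((p * p : ℕ) : ℤ) ∣ (D : ℤ) := by
      rw [← hlead, Nat.cast_mul]
      exact mul_dvd_mul hpaZ h5
    have h7 : p * p ∣ D := by exact_mod_cast h6
    have h8 := hsq p h7
    exact hp.one_lt.ne' (Nat.isUnit_iff.mp h8)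
  have ha6 : a ∣ 6 := by
    rw [← Nat.prod_primeFactors_of_squarefree hasq]
    have : a.primeFactors ⊆ ({2, 3} : Finset ℕ) := by
      intro p hp
      rw [Nat.mem_primeFactors] at hp
      rcases hbig p hp.1 hp.2.1 with h | h
      · simp [h]
      · simp [h]
    exact (Finset.prod_dvd_prod_of_subset _ _ _ this).trans (by decide)
  have h3a : 3 ∣ a := by
    by_contra h3
    have : Fact (Nat.Prime 3) := ⟨Nat.prime_three⟩
    obtain ⟨u, hu, hPu⟩ := hPl 3 Nat.prime_three (by omega)
    apply hN q hq2 (F.map (Int.castRingHom (ZMod 3)))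
    · refine ⟨C u⁻¹ * G.map (Int.castRingHom (ZMod 3)), ?_⟩
      rw [mul_left_comm, ← Polynomial.map_mul, ← hG, hPu, ← mul_assoc, ← C_mul,
        inv_mul_cancel₀ hu, C_1, one_mul]
    · rw [natDegree_map_of_leadingCoeff_ne_zero, hFdeg]
      rw [hFlead]
      intro h0
      apply h3
      rw [eq_intCast, Int.cast_natCast, ZMod.natCast_eq_zero_iff] at h0
      exact h0
  obtain ⟨b, hb⟩ := ha6
  have h3b : ¬ (3 : ℤ) ∣ (b : ℤ) := by
    intro h
    have h' : 3 ∣ b := by exact_mod_cast h
    have : 3 * 3 ∣ a * b := mul_dvd_mul h3a h'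
    rw [← hb] at this
    revert this
    decide
  have h3N : ¬ (3 : ℤ) ∣ c.num := by
    intro h
    have h3a' : (3 : ℤ) ∣ (a : ℤ) := by exact_mod_cast h3a
    exact Int.prime_three.not_unit (hcop.isUnit_of_dvd' h h3a')
  refine ⟨3 - 2 * b * c.num, ?_, ?_⟩
  · intro h
    have h1 : (3 : ℤ) ∣ 2 * b * c.num := by
      have := dvd_sub (dvd_refl (3 : ℤ)) h
      rwa [sub_sub_cancel] at this
    rcases Int.prime_three.dvd_or_dvd h1 with h | h
    · rcases Int.prime_three.dvd_or_dvd h with h | h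
      · revert h
        decide
      · exact h3b h
    · exact h3N h
  · have h1 : (((3 - (3 - 2 * (b : ℤ) * c.num) : ℤ)) : ℚ) / 12 = c := by
      have h2 : c = c.num / (a : ℚ) := (Rat.num_div_den c).symm
      have h3 : (6 : ℚ) = a * b := by exact_mod_cast hb
      have h4 : (b : ℚ) ≠ 0 := by
        intro h0
        rw [h0, mul_zero] at h3
        norm_num at h3
      have h5 : (12 : ℚ) = 2 * (a * b) := by rw [← h3]; norm_num
      rw [h5]
      conv_rhs => rw [h2]
      push_cast
      field_simp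
      ring
    rw [h1]
    exact hg

end Pool.Agent.L7h10.BP
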