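import Pool.Agent.L7h58.BP.Stm

set_option autoImplicit false

/-! # Power sums modulo `p` (project BP) -/

namespace Pool.Agent.L7h10.BP

open Pool.Agent.L7h58.BP Polynomial Finset

/-- the power sum -/
def pw (p k : ℕ) : ZMod p := ∑ a ∈ range p, (a : ZMod p) ^ k

theorem pw_zero (p : ℕ) : pw p 0 = 0 := by
  simp [pw]

theorem pw_eq (p k : ℕ) [Fact p.Prime] (hk : k ≠ 0) :
    pw p k = if (p - 1) ∣ k then -1 else 0 := by
  have hbij : (∑ v ∈ Ico 1 p, (v : ZMod p) ^ k) = ∑ u : (ZMod p)ˣ, (u : ZMod p) ^ k :=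
    Finset.sum_bij'
      (fun v hv ↦ Units.mk0 (v : ZMod p) (mt (ZMod.natCast_eq_zero_iff v p).mp (by
        grind [Nat.not_dvd_of_pos_of_lt])))
      (fun u _ ↦ (u : ZMod p).val)
      (fun _ _ ↦ Finset.mem_univ _)
      (fun u _ ↦ by grind [u.ne_zero, ZMod.val_ne_zero, ZMod.val_lt])
      (fun v hv ↦ by simp [ZMod.val_cast_of_lt (Finset.mem_Ico.mp hv).2])
      (fun u _ ↦ Units.ext (ZMod.natCast_zmod_val _))
      (fun _ _ ↦ rfl)
  have hp : 0 < p := (Fact.out : p.Prime).pos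
  rw [pw, Finset.sum_range_eq_add_Ico _ hp, hbij, FiniteField.sum_pow_units, ZMod.card]
  simp [hk]

theorem coeff_Sp (p n j : ℕ) : (Sp p n).coeff j = (n.choose j : ZMod p) * pw p (n - j) := by
  rw [Sp, finsetSum_coeff, pw, Finset.mul_sum]
  refine Finset.sum_congr rfl fun a _ => ?_
  rw [coeff_X_add_C_pow, mul_comm]

end Pool.Agent.L7h10.BP
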