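import Pool.Agent.L7h10.BP.Pw

set_option autoImplicit false

/-! # Part RED of project BP: the integral multiple of `B_n` and its reductions -/

namespace Pool.Agent.L7h10.BP

open Pool.Agent.L7h58.BP Polynomial Finset

/-- the primes up to `m` -/
def prs (m : ℕ) : Finset ℕ := (range (m + 1)).filter Nat.Prime

theorem mem_prs {m p : ℕ} : p ∈ prs m ↔ p ≤ m ∧ p.Prime := by
  simp [prs]

/-- their product -/
def DD (m : ℕ) : ℕ := ∏ p ∈ prs m, p

/-- the product without `p` -/
def DE (m p : ℕ) : ℕ := ∏ q ∈ (prs m).erase p, q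

theorem DD_eq {m p : ℕ} (hp : p ∈ prs m) : DD m = p * DE m p :=
  (Finset.mul_prod_erase _ _ hp).symm

theorem DD_pos (m : ℕ) : 0 < DD m :=
  Finset.prod_pos fun _ hp => (mem_prs.1 hp).2.pos

theorem not_dvd_DE {m p : ℕ} (hp : p.Prime) : ¬ p ∣ DE m p := by
  intro h
  obtain ⟨q, hq, hpq⟩ := (hp.prime.dvd_finsetProd_iff _).1 h
  obtain ⟨h1, h2⟩ := Finset.mem_erase.1 hq
  exact h1 ((Nat.prime_dvd_prime_iff_eq hp (mem_prs.1 h2).2).1 hpq).symm

theorem dvd_DE {m p q : ℕ} (hp : p ∈ prs m) (hne : p ≠ q) : p ∣ DE m q :=
  Finset.dvd_prod_of_mem _ (Finset.mem_erase.2 ⟨hne, hp⟩)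

/-- integral coefficients -/
theorem coef (n : ℕ) (hn : Even n) (k : ℕ) (hk : k ≤ n) :
    ∃ z : ℤ, (z : ℚ) = (DD (n + 1) : ℚ) * (_root_.bernoulli k * n.choose k) ∧
      ∀ p ∈ prs (n + 1),
        (z : ZMod p) = (DE (n + 1) p : ZMod p) * ((n.choose k : ZMod p) * pw p k) := by
  have hD0 : ∀ p ∈ prs (n + 1), ((DD (n + 1) : ℕ) : ZMod p) = 0 := by
    intro p hp
    rw [ZMod.natCast_eq_zero_iff, DD_eq hp]
    exact Dvd.intro _ rfl
  rcases Nat.even_or_odd k with hke | hko
  · obtain ⟨j, hj⟩ := hke
    have hj2 : k = 2 * j := by omega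
    rcases Nat.eq_zero_or_pos j with h0 | hjp
    · subst h0
      obtain rfl : k = 0 := by omega
      refine ⟨DD (n + 1), by simp, ?_⟩
      intro p hp
      rw [pw_zero, mul_zero, mul_zero, Int.cast_natCast, hD0 p hp]
    · subst hj2
      obtain ⟨z, hz⟩ := Bernoulli.vonStaudt_clausen j
      set S := (range (2 * j + 2)).filter (fun p => p.Prime ∧ (p - 1) ∣ 2 * j) with hS
      have hSm : ∀ q ∈ S, q ∈ prs (n + 1) := by
        intro q hq
        rw [hS, Finset.mem_filter, Finset.mem_range] at hq
        exact mem_prs.2 ⟨by omega, hq.2.1⟩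
      refine ⟨((DD (n + 1) : ℤ) * z - ∑ q ∈ S, (DE (n + 1) q : ℤ)) * (n.choose (2 * j) : ℤ), ?_, ?_⟩
      · have h1 : (_root_.bernoulli (2 * j) : ℚ) = z - ∑ q ∈ S, (1 : ℚ) / q := by
          rw [hz]
          ring
        have h2 : (DD (n + 1) : ℚ) * ∑ q ∈ S, (1 : ℚ) / q = ∑ q ∈ S, (DE (n + 1) q : ℚ) := by
          rw [Finset.mul_sum]
          refine Finset.sum_congr rfl fun q hq => ?_
          have hq0 : (q : ℚ) ≠ 0 := Nat.cast_ne_zero.2 (mem_prs.1 (hSm q hq)).2.ne_zero
          rw [DD_eq (hSm q hq)]
          push_cast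
          field_simp
        push_cast
        rw [h1, ← h2]
        ring
      · intro p hp
        have : Fact p.Prime := ⟨(mem_prs.1 hp).2⟩
        have hz0 : ((DD (n + 1) : ℕ) : ZMod p) = 0 := hD0 p hp
        have hsum : ∑ q ∈ S, ((DE (n + 1) q : ℕ) : ZMod p) =
            if p ∈ S then ((DE (n + 1) p : ℕ) : ZMod p) else 0 := by
          rw [← Finset.sum_ite_eq' S p (fun q => ((DE (n + 1) q : ℕ) : ZMod p))]
          refine Finset.sum_congr rfl fun q hq => ?_
          split_ifs with h
          · rfl
          · rw [ZMod.natCast_eq_zero_iff]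
            exact dvd_DE hp (fun h' => h h'.symm)
        have hiff : p ∈ S ↔ (p - 1) ∣ 2 * j := by
          rw [hS, Finset.mem_filter, Finset.mem_range]
          constructor
          · exact fun h => h.2.2
          · intro h
            have := Nat.le_of_dvd (by omega) h
            exact ⟨by omega, (mem_prs.1 hp).2, h⟩
        push_cast
        rw [hz0, hsum, pw_eq p _ (by omega)]
        by_cases h : (p - 1) ∣ 2 * j
        · rw [if_pos (hiff.2 h), if_pos h]
          ring
        · rw [if_neg (fun h' => h (hiff.1 h')), if_neg h]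
          ring
  · rcases Nat.lt_or_ge k 2 with h1 | h2
    · obtain rfl : k = 1 := by
        obtain ⟨r, hr⟩ := hko
        omega
      obtain ⟨r, hr⟩ := hn
      refine ⟨-((DD (n + 1) : ℤ) * r), ?_, ?_⟩
      · rw [_root_.bernoulli_one, Nat.choose_one_right, hr]
        push_cast
        ring
      · intro p hp
        have : Fact p.Prime := ⟨(mem_prs.1 hp).2⟩
        have hz0 : ((DD (n + 1) : ℕ) : ZMod p) = 0 := hD0 p hp
        push_cast
        rw [hz0, pw_eq p 1 one_ne_zero, Nat.choose_one_right]
        split_ifs with h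
        · have hp2 : p = 2 := by
            have := Nat.le_of_dvd one_pos h
            have := (mem_prs.1 hp).2.two_le
            omega
          subst hp2
          have hn0 : ((n : ℕ) : ZMod 2) = 0 := by
            rw [ZMod.natCast_eq_zero_iff]
            omega
          rw [hn0]
          ring
        · ring
    · have hk1 : 1 < k := by omega
      refine ⟨0, ?_, ?_⟩
      · rw [bernoulli_eq_zero_of_odd hko hk1]
        simp
      · intro p hp
        have : Fact p.Prime := ⟨(mem_prs.1 hp).2⟩
        rw [pw_eq p k (by omega), Int.cast_zero]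
        split_ifs with h
        · have hp2 : p = 2 := by
            by_contra hne
            have h3 := (mem_prs.1 hp).2.even_sub_one hne
            have h4 : Even k := by
              obtain ⟨c, hc⟩ := h
              rw [hc]
              exact h3.mul_right c
            exact (Nat.not_even_iff_odd.2 hko) h4
          subst hp2
          have hc0 : ((n.choose k : ℕ) : ZMod 2) = 0 := by
            rw [ZMod.natCast_eq_zero_iff]
            have h5 : n * (n - 1).choose (k - 1) = n.choose k * k := by
              have := Nat.add_one_mul_choose_eq (n - 1) (k - 1)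
              rw [Nat.sub_add_cancel (by omega), Nat.sub_add_cancel (by omega)] at this
              exact this
            have h6 : 2 ∣ n.choose k * k := by
              rw [← h5]
              exact (even_iff_two_dvd.1 hn).mul_right _
            rcases (Nat.Prime.dvd_mul Nat.prime_two).1 h6 with h7 | h7
            · exact h7
            · exact absurd (even_iff_two_dvd.2 h7) (Nat.not_even_iff_odd.2 hko)
          rw [hc0]
          ring
        · ring

theorem s_RED : S_RED := by
  intro n hn hn2
  choose! z hz1 hz2 using coef n hn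
  refine ⟨∑ k ∈ range (n + 1), monomial (n - k) (z k), DD (n + 1), DD_pos _, ?_, ?_⟩
  · rw [Polynomial.map_sum, Polynomial.bernoulli, Finset.mul_sum]
    refine Finset.sum_congr rfl fun k hk => ?_
    rw [map_monomial, C_mul_monomial]
    congr 1
    exact hz1 k (by rw [Finset.mem_range] at hk; omega)
  · intro p hp hpn
    have hpm : p ∈ prs (n + 1) := mem_prs.2 ⟨hpn, hp⟩
    refine ⟨by rw [DD_eq hpm]; exact Dvd.intro _ rfl, ?_, (DE (n + 1) p : ZMod p), ?_, ?_⟩
    · rw [DD_eq hpm, pow_two]
      intro h
      exact not_dvd_DE hp (Nat.dvd_of_mul_dvd_mul_left hp.pos h)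
    · intro h
      rw [ZMod.natCast_eq_zero_iff] at h
      exact not_dvd_DE hp h
    · ext j
      rw [coeff_C_mul, coeff_Sp, coeff_map, finsetSum_coeff]
      simp only [coeff_monomial]
      rcases Nat.lt_or_ge n j with hj | hj
      · rw [Nat.choose_eq_zero_of_lt hj, Nat.cast_zero, zero_mul, mul_zero,
          Finset.sum_eq_zero, map_zero]
        intro k _
        rw [if_neg (by omega)]
      · rw [Finset.sum_eq_single (n - j)]
        · rw [if_pos (by omega), eq_intCast, hz2 (n - j) (Nat.sub_le _ _) p hpm,
            Nat.choose_symm hj]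
        · intro k hk hne
          rw [Finset.mem_range] at hk
          rw [if_neg (by omega)]
        · intro h
          exact absurd (Finset.mem_range.2 (by omega)) h

end Pool.Agent.L7h10.BP
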