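import Pool.Agent.L7h58.BP.Stm2
import Pool.Agent.L7h10.BP.RED

set_option autoImplicit false

/-! # Part RED2 of project BP -/

namespace Pool.Agent.L7h10.BP

open Pool.Agent.L7h58.BP Polynomial Finset

theorem DD_primorial (m : ℕ) : DD m = primorial m := rfl

theorem s_RED2 : S_RED2 := by
  intro n hn hn2
  choose! z hz1 hz2 using coef n hn
  refine ⟨∑ k ∈ range (n + 1), monomial (n - k) (z k), ?_, ?_⟩
  · rw [← DD_primorial, Polynomial.map_sum, Polynomial.bernoulli, Finset.mul_sum]
    refine Finset.sum_congr rfl fun k hk => ?_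
    rw [map_monomial, C_mul_monomial]
    congr 1
    exact hz1 k (by rw [Finset.mem_range] at hk; omega)
  · intro p hp hpn
    have hpm : p ∈ prs (n + 1) := mem_prs.2 ⟨hpn, hp⟩
    refine ⟨(DE (n + 1) p : ZMod p), ?_, ?_⟩
    · intro h
      rw [ZMod.natCast_eq_zero_iff] at h
      exact not_dvd_DE hp h
    · ext j
      rw [coeff_C_mul, coeff_Sp, coeff_map, finsetSum_coeff]
      simp only [coeff_monomial]
      rcases Nat.lt_or_ge n j with hj | hj
      · rw [Nat.choose_eq_zero_of_lt hj, Nat.cast_zero, zero_mul, mul_zero,
          Finset.sum_eq_zero, map_zero]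
        intro k _
        rw [if_neg (by omega)]
      · rw [Finset.sum_eq_single (n - j)]
        · rw [if_pos (by omega), eq_intCast, hz2 (n - j) (Nat.sub_le _ _) p hpm,
            Nat.choose_symm hj]
        · intro k hk hne
          rw [Finset.mem_range] at hk
          rw [if_neg (by omega)]
        · intro h
          exact absurd (Finset.mem_range.2 (by omega)) h

end Pool.Agent.L7h10.BP
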