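import Pool.Agent.L7h58.BP.Stm2

set_option autoImplicit false

/-! # Part SIZ of project BP -/

namespace Pool.Agent.L7h10.BP

open Pool.Agent.L7h58.BP Finset

theorem inv_fact (i : ℕ) : (1 : ℚ) / (i + 2).factorial ≤ (1 / 2) ^ (i + 1) := by
  induction i with
  | zero => norm_num
  | succ i ih =>
    rw [show i + 1 + 2 = (i + 2) + 1 by ring, Nat.factorial_succ]
    push_cast
    have h0 : (0 : ℚ) < (i + 2).factorial := by exact_mod_cast Nat.factorial_pos _
    have h1 : (1 : ℚ) / ((i + 2 + 1) * (i + 2).factorial) =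
        (1 / (i + 2).factorial) * (1 / (i + 2 + 1)) := by
      field_simp
    rw [h1, pow_succ (1 / 2 : ℚ) (i + 1)]
    have h2 : (1 : ℚ) / (i + 2 + 1) ≤ 1 / 2 := by
      apply one_div_le_one_div_of_le (by norm_num)
      have : (0 : ℚ) ≤ i := Nat.cast_nonneg i
      linarith
    exact mul_le_mul ih h2 (by positivity) (by positivity)

theorem sum_inv_fact (k : ℕ) : ∑ i ∈ range k, (1 : ℚ) / (i + 2).factorial ≤ 1 := by
  have h : ∑ i ∈ range k, (1 : ℚ) / (i + 2).factorial ≤ 1 - (1 / 2) ^ k := by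
    induction k with
    | zero => simp
    | succ k ih =>
      rw [Finset.sum_range_succ]
      have h1 := inv_fact k
      have h2 : (1 / 2 : ℚ) ^ (k + 1) = (1 / 2) ^ k / 2 := by rw [pow_succ]; ring
      rw [h2] at h1 ⊢
      linarith
  have : (0 : ℚ) ≤ (1 / 2) ^ k := by positivity
  linarith

theorem abs_bernoulli_le (k : ℕ) : |_root_.bernoulli k| ≤ (k.factorial : ℚ) := by
  induction k using Nat.strong_induction_on with
  | _ k ih =>
    rcases Nat.eq_zero_or_pos k with h0 | hk
    · subst h0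
      simp
    have h1 := sum_bernoulli (k + 1)
    rw [if_neg (by omega), Finset.sum_range_succ, Nat.choose_succ_self_right] at h1
    have h2 : ((k + 1 : ℕ) : ℚ) * _root_.bernoulli k =
        -∑ j ∈ range k, ((k + 1).choose j : ℚ) * _root_.bernoulli j := by linarith
    have h3 : ((k + 1 : ℕ) : ℚ) * |_root_.bernoulli k| ≤ (k + 1).factorial := by
      rw [← Nat.abs_cast (k + 1), ← abs_mul, h2, abs_neg]
      calc |∑ j ∈ range k, ((k + 1).choose j : ℚ) * _root_.bernoulli j|
          ≤ ∑ j ∈ range k, |((k + 1).choose j : ℚ) * _root_.bernoulli j| :=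
            Finset.abs_sum_le_sum_abs _ _
        _ ≤ ∑ j ∈ range k, ((k + 1).factorial : ℚ) * (1 / (k - 1 - j + 2).factorial) := by
            refine Finset.sum_le_sum fun j hj => ?_
            rw [Finset.mem_range] at hj
            rw [abs_mul, Nat.abs_cast]
            have h4 : k - 1 - j + 2 = k + 1 - j := by omega
            have h5 : (((k + 1).choose j * j.factorial * (k + 1 - j).factorial : ℕ) : ℚ) =
                (k + 1).factorial := by
              rw [Nat.choose_mul_factorial_mul_factorial (by omega)]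
            have h6 : (0 : ℚ) < (k + 1 - j).factorial := by exact_mod_cast Nat.factorial_pos _
            calc ((k + 1).choose j : ℚ) * |_root_.bernoulli j|
                ≤ ((k + 1).choose j : ℚ) * j.factorial :=
                  mul_le_mul_of_nonneg_left (ih j hj) (Nat.cast_nonneg _)
              _ = ((k + 1).factorial : ℚ) * (1 / (k - 1 - j + 2).factorial) := by
                  rw [h4, ← h5]
                  push_cast
                  field_simp
        _ = ((k + 1).factorial : ℚ) * ∑ i ∈ range k, (1 : ℚ) / (i + 2).factorial := by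
            rw [Finset.mul_sum]
            exact Finset.sum_range_reflect
              (fun i => ((k + 1).factorial : ℚ) * (1 / (i + 2).factorial)) k
        _ ≤ ((k + 1).factorial : ℚ) * 1 :=
            mul_le_mul_of_nonneg_left (sum_inv_fact k) (Nat.cast_nonneg _)
        _ = _ := mul_one _
    rw [Nat.factorial_succ] at h3
    push_cast at h3
    have h7 : (0 : ℚ) < (k : ℚ) + 1 := by positivity
    exact le_of_mul_le_mul_left h3 h7

theorem be_zero : be 0 = 1 := by
  unfold be
  norm_num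

theorem abs_be_le (j : ℕ) : |be j| ≤ 12 ^ j * ((2 * j).factorial : ℚ) := by
  unfold be
  rw [abs_mul, abs_mul]
  have h1 : |(3 : ℚ) ^ j| = 3 ^ j := abs_of_pos (by positivity)
  have h2 : |(2 : ℚ) - 4 ^ j| ≤ 4 ^ j := by
    have h3 : (1 : ℚ) ≤ 4 ^ j := one_le_pow₀ (by norm_num)
    rw [abs_le]
    constructor <;> linarith
  rw [h1, show (12 : ℚ) ^ j = 3 ^ j * 4 ^ j by rw [← mul_pow]; norm_num]
  exact mul_le_mul (mul_le_mul_of_nonneg_left h2 (by positivity)) (abs_bernoulli_le _)
    (abs_nonneg _) (by positivity)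

theorem s_SIZ : S_SIZ := by
  intro n Y hn hY hR
  by_contra hc
  push Not at hc
  have hYpos : (0 : ℚ) < |(Y : ℚ)| := abs_pos.2 (Int.cast_ne_zero.2 hY)
  have hc' : 24 * (n : ℚ) ^ 2 < |(Y : ℚ)| := by
    have h1 : ((24 * (n : ℚ) ^ 2 : ℚ) : ℝ) < ((|(Y : ℚ)| : ℚ) : ℝ) := by
      push_cast
      exact hc
    exact_mod_cast h1
  set x : ℚ := 12 * (n : ℚ) ^ 2 / |(Y : ℚ)| with hx
  have hx0 : 0 ≤ x := by positivity
  have hx1 : x < 1 / 2 := by
    rw [hx, div_lt_iff₀ hYpos]
    linarith
  have hterm : ∀ j, |(n.choose (2 * j) : ℚ) * be j / (Y : ℚ) ^ j| ≤ x ^ j := by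
    intro j
    rw [abs_div, abs_mul, Nat.abs_cast, abs_pow, hx, div_pow]
    refine div_le_div_of_nonneg_right ?_ (by positivity)
    have h1 : ((n.choose (2 * j) * (2 * j).factorial : ℕ) : ℚ) ≤ ((n ^ (2 * j) : ℕ) : ℚ) := by
      have h2 : n.choose (2 * j) * (2 * j).factorial ≤ n ^ (2 * j) := by
        rw [mul_comm, ← Nat.descFactorial_eq_factorial_mul_choose]
        exact Nat.descFactorial_le_pow n (2 * j)
      exact_mod_cast h2
    push_cast at h1
    calc (n.choose (2 * j) : ℚ) * |be j|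
        ≤ (n.choose (2 * j) : ℚ) * (12 ^ j * ((2 * j).factorial : ℚ)) :=
          mul_le_mul_of_nonneg_left (abs_be_le j) (Nat.cast_nonneg _)
      _ = 12 ^ j * ((n.choose (2 * j) : ℚ) * ((2 * j).factorial : ℚ)) := by ring
      _ ≤ 12 ^ j * (n : ℚ) ^ (2 * j) := mul_le_mul_of_nonneg_left h1 (by positivity)
      _ = (12 * (n : ℚ) ^ 2) ^ j := by rw [mul_pow, ← pow_mul]
  unfold Pool.Agent.L7h58.BP.Rel at hR
  rw [Finset.sum_range_succ'] at hR
  have h0 : (n.choose (2 * 0) : ℚ) * be 0 / (Y : ℚ) ^ 0 = 1 := by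
    rw [be_zero]
    simp
  rw [h0] at hR
  have h1 : |∑ j ∈ range (n / 2), (n.choose (2 * (j + 1)) : ℚ) * be (j + 1) / (Y : ℚ) ^ (j + 1)| = 1 := by
    have : ∑ j ∈ range (n / 2), (n.choose (2 * (j + 1)) : ℚ) * be (j + 1) / (Y : ℚ) ^ (j + 1) =
        -1 := by linarith
    rw [this]
    norm_num
  have h2 : ∀ m : ℕ, ∑ j ∈ range m, x ^ (j + 1) ≤ 2 * x * (1 - (1 / 2) ^ m) := by
    intro m
    induction m with
    | zero => simp
    | succ m ih =>
      rw [Finset.sum_range_succ]
      have h3 : x ^ (m + 1) ≤ x * (1 / 2) ^ m := by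
        rw [pow_succ, mul_comm]
        exact mul_le_mul_of_nonneg_left (pow_le_pow_left₀ hx0 hx1.le m) hx0
      have h4 : (1 / 2 : ℚ) ^ (m + 1) = (1 / 2) ^ m / 2 := by rw [pow_succ]; ring
      rw [h4]
      nlinarith
  have h3 : |∑ j ∈ range (n / 2), (n.choose (2 * (j + 1)) : ℚ) * be (j + 1) / (Y : ℚ) ^ (j + 1)| < 1 := by
    calc _ ≤ ∑ j ∈ range (n / 2),
          |(n.choose (2 * (j + 1)) : ℚ) * be (j + 1) / (Y : ℚ) ^ (j + 1)| :=
          Finset.abs_sum_le_sum_abs _ _
      _ ≤ ∑ j ∈ range (n / 2), x ^ (j + 1) := Finset.sum_le_sum fun j _ => hterm (j + 1)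
      _ ≤ 2 * x * (1 - (1 / 2) ^ (n / 2)) := h2 _
      _ ≤ 2 * x := by
          have : (0 : ℚ) ≤ (1 / 2) ^ (n / 2) := by positivity
          nlinarith
      _ < 1 := by linarith
  linarith

end Pool.Agent.L7h10.BP
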